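import Pool.Agent.HermiteLoc.Main

set_option autoImplicit false

open scoped Real
open Complex MeasureTheory Set Pool.Agent.HermiteLoc

namespace Pool.Agent.Results.MP_11bc5f_an.HermiteWindowOne

/-- There is an open simply connected set `Ω` in the plane, of finite positive measure, the image of
the unit disc under a map holomorphic and injective on the disc of radius `2`, which is not almost
everywhere equal to any disc centred at the origin, such that the Hermite function `h_0` is an
eigenfunction of the localization operator `H^1_Ω` with window `h_1`. -/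
theorem result : ∃ Ω : Set (ℝ × ℝ), IsOpen Ω ∧ IsSimplyConnected Ω ∧
    0 < volume Ω ∧ volume Ω < ⊤ ∧
    (∃ G : ℂ → ℂ, DifferentiableOn ℂ G (Metric.ball 0 2) ∧ InjOn G (Metric.ball 0 2) ∧
      Ω = {w : ℝ × ℝ | (w.1 : ℂ) + w.2 * I ∈ G '' Metric.ball 0 1}) ∧
    (∀ R : ℝ, ¬ (Ω =ᵐ[volume] disc R)) ∧
    ∃ T : L2R →L[ℂ] L2R, IsLocOp 1 Ω T ∧
      ∃ u : L2R, u =ᵐ[volume] hermiteFn 0 ∧ ∃ c : ℂ, T u = c • u :=
  main

end Pool.Agent.Results.MP_11bc5f_an.HermiteWindowOne
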